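import Pool.Agent.Lib.MP_defcf3_al.BR.StageD

/-!
Module CORNRES of project BR7, stage 3: transitivity of the corestriction.
-/

set_option autoImplicit false
set_option linter.all false

namespace BR7.H30

open BR7

universe u

section basics

variable {G : Type u} [Group G] {A : Type u} [CommGroup A] [MulDistribMulAction G A]

theorem mem_out (N : Subgroup G) (g : G) (x : G ⧸ N) :
    (Quotient.out (g • x))⁻¹ * g * Quotient.out x ∈ N := by
  have h1 : (QuotientGroup.mk (Quotient.out (g • x)) : G ⧸ N) = g • x := QuotientGroup.out_eq' _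
  have h2 : (QuotientGroup.mk (g * Quotient.out x) : G ⧸ N) = g • x := by
    have h3 : (QuotientGroup.mk (Quotient.out x) : G ⧸ N) = x := QuotientGroup.out_eq' _
    conv_rhs => rw [← h3]
    rfl
  rw [mul_assoc]
  exact QuotientGroup.eq.1 (h1.trans h2.symm)

theorem out_one_mem (N : Subgroup G) : Quotient.out (QuotientGroup.mk (1 : G) : G ⧸ N) ∈ N := by
  have h1 : (QuotientGroup.mk (Quotient.out (QuotientGroup.mk (1 : G) : G ⧸ N)) : G ⧸ N) =
      QuotientGroup.mk 1 := QuotientGroup.out_eq' _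
  have h2 := QuotientGroup.eq.1 h1.symm
  simpa using h2

/-- a fixed vector gives an equivariant function -/
theorem eqvF_out (N : Subgroup G) (w : A) (hw : ∀ g ∈ N, g • w = w) :
    EqvF (G := G) (fun x : G ⧸ N => (Quotient.out x) • w) := by
  intro g x
  have h1 := hw _ (mem_out N g x)
  show (Quotient.out (g • x)) • w = g • (Quotient.out x) • w
  rw [mul_assoc, mul_smul, inv_smul_eq_iff, mul_smul] at h1
  exact h1.symm

/-- a character of a subgroup gives a character of the groupoid -/
theorem gchar_out (N : Subgroup G) (n : ℕ) (ψ : G → ZMod n)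
    (hadd : ∀ g ∈ N, ∀ h ∈ N, ψ (g * h) = ψ g + ψ h) :
    GChar n (fun g (x : G ⧸ N) => ψ ((Quotient.out (g • x))⁻¹ * g * Quotient.out x)) := by
  intro g h x
  have e : (Quotient.out ((g * h) • x))⁻¹ * (g * h) * Quotient.out x =
      ((Quotient.out (g • h • x))⁻¹ * g * Quotient.out (h • x)) *
        ((Quotient.out (h • x))⁻¹ * h * Quotient.out x) := by
    rw [mul_smul]; group
  show ψ _ = ψ _ + ψ _
  rw [e]
  exact hadd _ (mem_out N g (h • x)) _ (mem_out N h x)

theorem char_conj (N : Subgroup G) (n : ℕ) (ψ : G → ZMod n)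
    (hadd : ∀ g ∈ N, ∀ h ∈ N, ψ (g * h) = ψ g + ψ h) {a g : G} (ha : a ∈ N) (hg : g ∈ N) :
    ψ (a⁻¹ * g * a) = ψ g := by
  have h1 : ψ 1 = 0 := by
    have := hadd 1 N.one_mem 1 N.one_mem
    rw [mul_one] at this
    simpa using this
  have h2 : ψ a⁻¹ + ψ a = 0 := by
    rw [← hadd _ (N.inv_mem ha) _ ha, inv_mul_cancel, h1]
  rw [hadd _ (N.mul_mem (N.inv_mem ha) hg) _ ha, hadd _ (N.inv_mem ha) _ hg]
  calc ψ a⁻¹ + ψ g + ψ a = (ψ a⁻¹ + ψ a) + ψ g := by ring
    _ = ψ g := by rw [h2, zero_add]

variable [TopologicalSpace G] [IsTopologicalGroup G]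

theorem openStab_quot (N : Subgroup G) (hN : IsOpen (N : Set G)) : OpenStab G (G ⧸ N) := by
  intro x
  have e : {g : G | g • x = x} = (fun g : G => (Quotient.out x)⁻¹ * (g * Quotient.out x)) ⁻¹' (N : Set G) := by
    ext g
    have h3 : (QuotientGroup.mk (Quotient.out x) : G ⧸ N) = x := QuotientGroup.out_eq' _
    have h4 : (QuotientGroup.mk (g * Quotient.out x) : G ⧸ N) = g • x := by
      conv_rhs => rw [← h3]
      rfl
    rw [Set.mem_setOf_eq, Set.mem_preimage, SetLike.mem_coe, ← QuotientGroup.eq, h3, h4]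
    exact eq_comm
  rw [e]
  exact hN.preimage (by fun_prop)

theorem lc_out (N : Subgroup G) (hN : IsOpen (N : Set G)) (n : ℕ) (ψ : G → ZMod n)
    (hψ : IsLocallyConstant ψ) (x : G ⧸ N) :
    IsLocallyConstant (fun g : G => ψ ((Quotient.out (g • x))⁻¹ * g * Quotient.out x)) := by
  rw [IsLocallyConstant.iff_exists_open]
  intro g0
  have h1 : IsOpen {g : G | g • x = g0 • x} := by
    have e : {g : G | g • x = g0 • x} = (fun g : G => g0⁻¹ * g) ⁻¹' {g : G | g • x = x} := by
      ext g
      rw [Set.mem_setOf_eq, Set.mem_preimage, Set.mem_setOf_eq, mul_smul, inv_smul_eq_iff]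
    rw [e]
    exact (openStab_quot N hN x).preimage (by fun_prop)
  have h2 : IsOpen ((fun g : G => (Quotient.out (g0 • x))⁻¹ * g * Quotient.out x) ⁻¹'
      (ψ ⁻¹' {ψ ((Quotient.out (g0 • x))⁻¹ * g0 * Quotient.out x)})) :=
    (hψ.isOpen_fiber _).preimage (by fun_prop)
  refine ⟨_, h1.inter h2, ⟨rfl, rfl⟩, ?_⟩
  rintro g ⟨hg1, hg2⟩
  have hg1' : g • x = g0 • x := hg1
  show ψ _ = ψ _
  rw [hg1']
  exact hg2

end basics

/-- CORNRES -/
theorem cornres (hpush : GcupPushStatement.{u}) (hchar : GCharStatement.{u})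
    (hadd : GcupAddStatement.{u}) (hcob : GcupCobStatement.{u}) : CorNResStatement.{u} := by
  classical
  intro G A _ _ _ _ _ hD N N' _ _ n _ ψ hle hN hN' w' hw'
  let π : G ⧸ N' → G ⧸ N := Subgroup.quotientMapOfLE hle
  have hπ : ∀ (g : G) (y : G ⧸ N'), π (g • y) = g • π y := by
    intro g y
    induction y using QuotientGroup.induction_on with
    | H a => rfl
  let u' : G ⧸ N' → A := fun y => (Quotient.out y) • w'
  have hu' : EqvF (G := G) u' := eqvF_out N' w' hw'
  let uu : G ⧸ N → A := fun x => ∏ y ∈ Finset.univ.filter (fun y => π y = x), u' y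
  have huu : EqvF (G := G) uu := by
    intro g x
    show ∏ y ∈ Finset.univ.filter (fun y => π y = g • x), u' y =
      g • ∏ y ∈ Finset.univ.filter (fun y => π y = x), u' y
    rw [Finset.smul_prod']
    symm
    refine Finset.prod_bij (fun y _ => g • y) ?_ ?_ ?_ ?_
    · intro y hy
      rw [Finset.mem_filter] at hy ⊢
      exact ⟨Finset.mem_univ _, by rw [hπ, hy.2]⟩
    · intro y _ y' _ h
      exact smul_left_cancel g h
    · intro y hy
      rw [Finset.mem_filter] at hy
      refine ⟨g⁻¹ • y, ?_, by rw [smul_inv_smul]⟩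
      rw [Finset.mem_filter]
      exact ⟨Finset.mem_univ _, by rw [hπ, hy.2, inv_smul_smul]⟩
    · intro y _
      exact (hu' g y).symm
  let w1 : A := uu (QuotientGroup.mk 1)
  have hmk : ∀ g ∈ N, g • (QuotientGroup.mk 1 : G ⧸ N) = QuotientGroup.mk 1 := by
    intro g hg
    have : g • (QuotientGroup.mk 1 : G ⧸ N) = QuotientGroup.mk (g * 1) := rfl
    rw [this, mul_one]
    exact (QuotientGroup.eq.2 (by simpa using N.inv_mem hg))
  have hw1 : ∀ g ∈ N, g • w1 = w1 := by
    intro g hg
    show g • uu _ = uu _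
    rw [← huu g, hmk g hg]
  have hout : ∀ x : G ⧸ N, (Quotient.out x) • w1 = uu x := by
    intro x
    show (Quotient.out x) • uu _ = uu x
    rw [← huu]
    congr 1
    have h1 : (QuotientGroup.mk (Quotient.out x) : G ⧸ N) = x := QuotientGroup.out_eq' _
    have h2 : (Quotient.out x) • (QuotientGroup.mk 1 : G ⧸ N) = QuotientGroup.mk (Quotient.out x * 1) := rfl
    rw [h2, mul_one, h1]
  refine ⟨w1, hw1, ?_, ?_⟩
  · rw [Finset.prod_congr rfl fun x _ => hout x]
    exact Finset.prod_fiberwise (Finset.univ : Finset (G ⧸ N')) π u'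
  · set χ' : G → G ⧸ N' → ZMod n := fun g y => ψ ((Quotient.out (g • y))⁻¹ * g * Quotient.out y)
      with hχ'
    set χ : G → G ⧸ N → ZMod n := fun g x => ψ ((Quotient.out (g • x))⁻¹ * g * Quotient.out x)
      with hχ
    have hc' : GChar n χ' := gchar_out N' n ψ hN'.add
    have hc : GChar n χ := gchar_out N n ψ hN.add
    have hcπ : GChar n (fun g y => χ g (π y)) := by
      intro g h y
      show χ (g * h) (π y) = χ g (π (h • y)) + χ h (π y)
      rw [hπ]
      exact hc g h (π y)
    have hO' := openStab_quot N' hN'.isOpen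
    have e1 : corN N' n w' ψ = gcup n u' χ' := rfl
    have e2 : corN N n w1 ψ = gcup n u' (fun g y => χ g (π y)) := by
      rw [hpush G A (G ⧸ N') (G ⧸ N) n π hπ u' χ]
      unfold corN
      congr 1
      funext x
      exact hout x
    obtain ⟨ρ, hρ⟩ := hchar G (G ⧸ N') n χ' (fun g y => χ g (π y)) (QuotientGroup.mk 1) hc' hcπ
      (by
        intro y
        refine ⟨Quotient.out y, ?_⟩
        have h1 : (QuotientGroup.mk (Quotient.out y) : G ⧸ N') = y := QuotientGroup.out_eq' _
        have h2 : (Quotient.out y) • (QuotientGroup.mk 1 : G ⧸ N') =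
          QuotientGroup.mk (Quotient.out y * 1) := rfl
        rw [h2, mul_one, h1])
      (by
        intro g hg
        have hg1 : (QuotientGroup.mk (g * 1) : G ⧸ N') = QuotientGroup.mk 1 := hg
        have hgN' : g ∈ N' := by
          have := QuotientGroup.eq.1 hg1
          simpa using this
        have hgN : g ∈ N := hle hgN'
        have e3 : χ' g (QuotientGroup.mk 1) = ψ g := by
          rw [hχ']
          show ψ _ = ψ g
          rw [hg]
          exact char_conj N' n ψ hN'.add (out_one_mem N') hgN'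
        have e4 : χ g (π (QuotientGroup.mk 1)) = ψ g := by
          have e5 : π (QuotientGroup.mk 1) = QuotientGroup.mk 1 := rfl
          rw [e5, hχ]
          show ψ _ = ψ g
          rw [hmk g hgN]
          exact char_conj N n ψ hN.add (out_one_mem N) hgN
        rw [e3]
        exact e4.symm)
    have e6 : χ' = fun (g : G) (y : G ⧸ N') => χ g (π y) + (ρ (g • y) - ρ y) := by
      funext g y
      exact hρ g y
    have hlc : ∀ y : G ⧸ N', IsLocallyConstant (fun g => χ g (π y)) := fun y =>
      lc_out N hN.isOpen n ψ hN.lc (π y)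
    have hlc2 : ∀ y : G ⧸ N', IsLocallyConstant (fun g : G => ρ (g • y) - ρ y) := by
      intro y
      rw [IsLocallyConstant.iff_exists_open]
      intro g0
      have h1 : IsOpen {g : G | g • y = g0 • y} := by
        have e : {g : G | g • y = g0 • y} = (fun g : G => g0⁻¹ * g) ⁻¹' {g : G | g • y = y} := by
          ext g
          rw [Set.mem_setOf_eq, Set.mem_preimage, Set.mem_setOf_eq, mul_smul, inv_smul_eq_iff]
        rw [e]
        exact (hO' y).preimage (by fun_prop)
      refine ⟨_, h1, rfl, ?_⟩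
      intro g hg
      have hg' : g • y = g0 • y := hg
      show ρ (g • y) - ρ y = ρ (g0 • y) - ρ y
      rw [hg']
    have hcobc : GChar n (fun (g : G) (y : G ⧸ N') => ρ (g • y) - ρ y) := by
      intro g h y
      show ρ ((g * h) • y) - ρ y = (ρ (g • h • y) - ρ (h • y)) + (ρ (h • y) - ρ y)
      rw [mul_smul]; ring
    have h1 := hadd G A (G ⧸ N') hD hO' n u' (fun g y => χ g (π y))
      (fun (g : G) (y : G ⧸ N') => ρ (g • y) - ρ y) hu' hcπ hcobc hlc hlc2
    have h2 := hcob G A (G ⧸ N') hD hO' n u' ρ hu'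
    rw [e1, e2]
    have e7 : gcup n u' χ' = gcup n u' (fun (g : G) (y : G ⧸ N') => χ g (π y) + (ρ (g • y) - ρ y)) := by rw [e6]
    rw [e7]
    have h3 := (B2 G A).mul_mem h1 h2
    have e8 : gcup n u' (fun (g : G) (y : G ⧸ N') => χ g (π y) + (ρ (g • y) - ρ y)) *
        (gcup n u' (fun g y => χ g (π y)) * gcup n u' (fun (g : G) (y : G ⧸ N') => ρ (g • y) - ρ y))⁻¹ *
        gcup n u' (fun (g : G) (y : G ⧸ N') => ρ (g • y) - ρ y) =
        gcup n u' (fun (g : G) (y : G ⧸ N') => χ g (π y) + (ρ (g • y) - ρ y)) *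
          (gcup n u' (fun g y => χ g (π y)))⁻¹ := by
      rw [mul_inv, mul_assoc, mul_assoc, inv_mul_cancel, mul_one]
    rw [e8] at h3
    exact h3

end BR7.H30
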