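import Pool.Agent.Lib.MP_defcf3_al.BR.H50.KeyB

/-! H13: the heart for d = 6 (Proposition 6 of the paper). -/

set_option linter.all false

namespace BR7.H30

universe u

open BR7 BR7.H50

variable {F Ω : Type u} [Field F] [Field Ω] [Algebra F Ω]
variable {Q : Type u} [AddCommGroup Q] {sym : Ωˣ → Ωˣ → Q} {Γ : AddMonoid.End Q} {ζ : Ωˣ} {γ : Ω ≃ₐ[F] Ω}

theorem InL_smul {k : ℕ} (hγ : γ • ζ = ζ ^ k) {a : Ωˣ} (ha : InL F ζ a) : InL F ζ (γ • a) := by
  intro g hg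
  have h1 : (γ⁻¹ * g * γ) • ζ = ζ := by
    rw [mul_smul, mul_smul, hγ, smul_pow', hg, ← hγ, inv_smul_smul]
  have h2 := ha _ h1
  rw [mul_smul, mul_smul, inv_smul_eq_iff] at h2
  exact h2

theorem InL_pow_smul {k : ℕ} (hγ : γ • ζ = ζ ^ k) {a : Ωˣ} (ha : InL F ζ a) (i : ℕ) :
    InL F ζ (γ ^ i • a) := by
  induction i with
  | zero => simpa using ha
  | succ i ih => rw [pow_succ', mul_smul]; exact InL_smul hγ ih

theorem gal1 (hS : SymAx F ζ γ 3 6 sym Γ) {a b : Ωˣ} (ha : InL F ζ a) (hb : InL F ζ b) :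
    Γ (sym a b) = 5 • sym (γ • a) (γ • b) := by
  rw [← hS.gal a b ha hb, smul_smul]
  have h7 : 7 • Γ (sym a b) = 0 := by
    rw [← map_nsmul, hS.tors a b ha hb, map_zero]
  have : (5 * 3 : ℕ) • Γ (sym a b) = Γ (sym a b) + 2 • (7 • Γ (sym a b)) := by
    rw [smul_smul]
    abel
  rw [this, h7, smul_zero, add_zero]

theorem galpow (hS : SymAx F ζ γ 3 6 sym Γ) {a b : Ωˣ} (ha : InL F ζ a) (hb : InL F ζ b) (i : ℕ) :
    (Γ ^ i) (sym a b) = 5 ^ i • sym (γ ^ i • a) (γ ^ i • b) := by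
  induction i with
  | zero => simp
  | succ i ih =>
    rw [pow_succ', show (Γ * Γ ^ i) (sym a b) = Γ ((Γ ^ i) (sym a b)) from rfl, ih, map_nsmul,
      gal1 hS (InL_pow_smul hS.act ha i) (InL_pow_smul hS.act hb i), smul_smul, ← pow_succ,
      ← mul_smul, ← mul_smul, ← pow_succ']

theorem gamma6 (hζ : IsPrimitiveRoot ζ 7) (hγ : γ • ζ = ζ ^ 3) {a : Ωˣ} (ha : InL F ζ a) :
    γ ^ 6 • a = a := by
  apply ha
  rw [gamma_pow hγ]
  have : ζ ^ (3 ^ 6) = ζ ^ (7 * 104 + 1) := by norm_num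
  rw [this, pow_succ, pow_mul, hζ.pow_eq_one, one_pow, one_mul]

/-- the twisted norm -/
def sharp (γ : Ω ≃ₐ[F] Ω) (l : Ωˣ) : Ωˣ := l * (γ ^ 2 • l) ^ 4 * (γ ^ 4 • l) ^ 2

theorem sharp_mul (l l' : Ωˣ) : sharp γ (l * l') = sharp γ l * sharp γ l' := by
  unfold sharp
  rw [smul_mul', smul_mul']
  simp only [mul_pow]
  rw [mul_mul_mul_comm l, mul_mul_mul_comm]

theorem InL_sharp {k : ℕ} (hγ : γ • ζ = ζ ^ k) {l : Ωˣ} (hl : InL F ζ l) : InL F ζ (sharp γ l) :=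
  InL_mul (InL_mul hl (InL_pow (InL_pow_smul hγ hl 2) 4)) (InL_pow (InL_pow_smul hγ hl 4) 2)

/-- The norm of a symbol with first entry fixed by γ^2. -/
theorem phi_sym (hS : SymAx F ζ γ 3 6 sym Γ) {m l : Ωˣ} (hm : InL F ζ m) (hl : InL F ζ l)
    (hm2 : γ ^ 2 • m = m) :
    ∑ i ∈ Finset.range 6, (Γ ^ i) (sym m l) =
      sym m (sharp γ l) - sym (γ ^ 3 • m) (γ ^ 3 • sharp γ l) := by
  have hm3 : γ ^ 3 • m = γ • m := by
    rw [pow_succ', mul_smul, hm2]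
  have hm4 : γ ^ 4 • m = m := by
    rw [show (4 : ℕ) = 2 + 2 from rfl, pow_add, mul_smul, hm2, hm2]
  have hm5 : γ ^ 5 • m = γ • m := by
    rw [pow_succ', mul_smul, hm4]
  have hL : ∀ i, InL F ζ (γ ^ i • l) := fun i => InL_pow_smul hS.act hl i
  have hm' : InL F ζ (γ • m) := InL_smul hS.act hm
  have h7 : γ ^ 7 • l = γ • l := by
    rw [pow_succ', mul_smul, gamma6 hS.prim hS.act hl]
  have e3 : γ ^ 3 • sharp γ l = (γ ^ 3 • l) * (γ ^ 5 • l) ^ 4 * (γ ^ 1 • l) ^ 2 := by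
    unfold sharp
    rw [smul_mul', smul_mul', smul_pow', smul_pow', ← mul_smul, ← mul_smul, ← pow_add, ← pow_add,
      h7, pow_one]
  rw [e3, hm3]
  unfold sharp
  rw [hS.add_right _ _ _ hm (InL_mul hl (InL_pow (hL 2) 4)) (InL_pow (hL 4) 2),
    hS.add_right _ _ _ hm hl (InL_pow (hL 2) 4), sym_pow_right hS hm (hL 2), sym_pow_right hS hm (hL 4),
    hS.add_right _ _ _ hm' (InL_mul (hL 3) (InL_pow (hL 5) 4)) (InL_pow (hL 1) 2),
    hS.add_right _ _ _ hm' (hL 3) (InL_pow (hL 5) 4), sym_pow_right hS hm' (hL 5),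
    sym_pow_right hS hm' (hL 1)]
  simp only [Finset.sum_range_succ, Finset.sum_range_zero, galpow hS hm hl]
  rw [hm2, hm3, hm4, hm5, pow_zero, pow_one, pow_zero, one_smul, one_smul, one_smul, pow_one]
  have t1 := hS.tors (γ • m) (γ ^ 1 • l) hm' (hL 1)
  have t2 := hS.tors m (γ ^ 2 • l) hm (hL 2)
  have t3 := hS.tors (γ • m) (γ ^ 3 • l) hm' (hL 3)
  have t4 := hS.tors m (γ ^ 4 • l) hm (hL 4)
  have t5 := hS.tors (γ • m) (γ ^ 5 • l) hm' (hL 5)
  rw [pow_one] at t1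
  generalize sym m l = A0 at *
  generalize sym (γ • m) (γ • l) = B1 at *
  generalize sym m (γ ^ 2 • l) = A2 at *
  generalize sym (γ • m) (γ ^ 3 • l) = B3 at *
  generalize sym m (γ ^ 4 • l) = A4 at *
  generalize sym (γ • m) (γ ^ 5 • l) = B5 at *
  have key : 0 + A0 + 5 • B1 + 5 ^ 2 • A2 + 5 ^ 3 • B3 + 5 ^ 4 • A4 + 5 ^ 5 • B5 =
      (A0 + 4 • A2 + 2 • A4 - (B3 + 4 • B5 + 2 • B1)) + (7 • B1 + 3 • (7 • A2) + 18 • (7 • B3) +
        89 • (7 • A4) + 447 • (7 • B5)) := by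
    simp only [smul_smul]
    norm_num
    abel
  rw [key, t1, t2, t3, t4, t5]
  simp

theorem InF_of {f : Ωˣ} (hS : SymAx F ζ γ 3 6 sym Γ) (hf : InL F ζ f) (h : γ • f = f) : InF F f := by
  intro g
  obtain ⟨i, hi⟩ := hS.gen g
  have hp : γ ^ i • f = f := by
    induction i generalizing g with
    | zero => simp
    | succ i ih =>
      have := ih (γ ^ i) rfl
      rw [pow_succ', mul_smul, this, h]
  have h1 : ((γ ^ i)⁻¹ * g) • f = f := by
    apply hf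
    rw [mul_smul, hi, inv_smul_smul]
  rw [mul_smul, inv_smul_eq_iff, hp] at h1
  exact h1

/-- the fixed field of γ^2 in L -/
def EE (ζ : Ωˣ) (γ : Ω ≃ₐ[F] Ω) : Subfield Ω where
  carrier := {e | (∀ g : Ω ≃ₐ[F] Ω, g • ζ = ζ → g e = e) ∧ (γ ^ 2 : Ω ≃ₐ[F] Ω) e = e}
  one_mem' := ⟨fun g _ => map_one g, map_one _⟩
  zero_mem' := ⟨fun g _ => map_zero g, map_zero _⟩
  mul_mem' := by
    rintro a b ⟨h1, h2⟩ ⟨h3, h4⟩
    exact ⟨fun g hg => by rw [map_mul, h1 g hg, h3 g hg], by rw [map_mul, h2, h4]⟩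
  add_mem' := by
    rintro a b ⟨h1, h2⟩ ⟨h3, h4⟩
    exact ⟨fun g hg => by rw [map_add, h1 g hg, h3 g hg], by rw [map_add, h2, h4]⟩
  neg_mem' := by
    rintro a ⟨h1, h2⟩
    exact ⟨fun g hg => by rw [map_neg, h1 g hg], by rw [map_neg, h2]⟩
  inv_mem' := by
    rintro a ⟨h1, h2⟩
    exact ⟨fun g hg => by rw [map_inv₀, h1 g hg], by rw [map_inv₀, h2]⟩

theorem line_InL {r q : F} {w : Ωˣ}
    (hw : (w : Ω) = lineX ((ζ : Ω) + (ζ : Ω)⁻¹) (algebraMap F Ω r) (algebraMap F Ω q)) :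
    InL F ζ w := by
  intro g hg
  apply Units.ext
  rw [smul_coe, hw, map_lineX, map_add, map_inv₀, ← smul_coe, hg]

theorem hsix (hgen : GenStatement.{u}) (hrel : RelStatement.{u}) (hfix : FixStatement.{u})
    (hkey : KeyStatement.{u}) : HeartStatement.{u} 3 6 := by
  intro F Ω _ _ _ _ _ ζ γ Q _ sym Γ hS
  have hz7 : ζ ^ 7 = 1 := hS.prim.pow_eq_one
  have hmain : ∀ m l : Ωˣ, InL F ζ m → InL F ζ l → γ ^ 2 • m = m →
      ∑ i ∈ Finset.range 6, (Γ ^ i) (sym m l) = 0 := by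
    intro m l hm hl hm2
    have hm3 : γ ^ 3 • m = γ • m := by
      rw [pow_succ', mul_smul, hm2]
    have hm' : InL F ζ (γ • m) := InL_smul hS.act hm
    have hlam : InL F ζ (sharp γ l) := InL_sharp hS.act hl
    have hlam' : InL F ζ (γ ^ 3 • sharp γ l) := InL_pow_smul hS.act hlam 3
    have hgm : γ • (γ • m) = m := by
      rw [← mul_smul, ← pow_two]; exact hm2
    -- first term
    have hf : InF F (m * (γ • m)) := by
      apply InF_of hS (InL_mul hm hm')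
      rw [smul_mul', hgm, mul_comm]
    have h1 : sym (m * (γ • m)) (sharp γ l * (γ ^ 3 • sharp γ l)⁻¹) = 0 := by
      have hfL : InL F ζ (m * (γ • m)) := InL_mul hm hm'
      have := hS.triv (m * (γ • m)) l hf hl
      rw [phi_sym hS hfL hl (hf _), hf (γ ^ 3)] at this
      rw [hS.add_right _ _ _ hfL hlam (InL_inv hlam'), sym_inv_right hS hfL hlam', ← sub_eq_add_neg]
      exact this
    -- second term
    have hcL : InL F ζ (m * (γ • m)⁻¹) := InL_mul hm (InL_inv hm')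
    have hc2 : γ ^ 2 • (m * (γ • m)⁻¹) = m * (γ • m)⁻¹ := by
      rw [smul_mul', smul_inv', hm2, ← mul_smul, ← pow_succ, hm3]
    have hc3 : (m * (γ • m)⁻¹) * (γ ^ 3 • (m * (γ • m)⁻¹)) = 1 := by
      rw [smul_mul', smul_inv', hm3]
      have : γ ^ 3 • (γ • m) = m := by
        rw [← mul_smul, ← pow_succ, show (3 + 1 : ℕ) = 2 + 2 from rfl, pow_add, mul_smul, hm2, hm2]
      rw [this]
      group
    have hk3 : γ ^ 3 • (l * (γ ^ 3 • l)) = l * (γ ^ 3 • l) := by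
      rw [smul_mul', ← mul_smul, ← pow_add, gamma6 hS.prim hS.act hl, mul_comm]
    have hkL : InL F ζ (l * (γ ^ 3 • l)) := InL_mul hl (InL_pow_smul hS.act hl 3)
    obtain ⟨r1, q1, r2, q2, w1, w2, hw1, hw2, hkw⟩ := hfix F Ω ζ γ hS.prim hS.act _ hkL hk3
    have hk1 : sym (m * (γ • m)⁻¹) (sharp γ w1) = 0 :=
      hkey F Ω ζ γ Q sym Γ hS r1 q1 w1 _ hw1 hcL hc2 hc3
    have hk2 : sym (m * (γ • m)⁻¹) (sharp γ w2) = 0 :=
      hkey F Ω ζ γ Q sym Γ hS r2 q2 w2 _ hw2 hcL hc2 hc3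
    have hsh : sharp γ l * (γ ^ 3 • sharp γ l) = sharp γ (l * (γ ^ 3 • l)) := by
      rw [sharp_mul]
      congr 1
      unfold sharp
      rw [smul_mul', smul_mul', smul_pow', smul_pow', ← mul_smul, ← mul_smul, ← mul_smul, ← mul_smul,
        ← pow_add, ← pow_add, ← pow_add, ← pow_add, add_comm 3 2, add_comm 3 4]
    have h2 : sym (m * (γ • m)⁻¹) (sharp γ l * (γ ^ 3 • sharp γ l)) = 0 := by
      rw [hsh]
      have e : sharp γ w1 = sharp γ (l * (γ ^ 3 • l)) * sharp γ w2 := by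
        rw [← sharp_mul, hkw]
      have := hS.add_right _ _ _ hcL (InL_sharp hS.act hkL) (InL_sharp hS.act (line_InL hw2))
      rw [← e, hk1, hk2, add_zero] at this
      exact this.symm
    rw [phi_sym hS hm hl hm2, hm3]
    -- combine
    rw [hS.add_left _ _ _ hm hm' (InL_mul hlam (InL_inv hlam')),
      hS.add_right _ _ _ hm hlam (InL_inv hlam'), hS.add_right _ _ _ hm' hlam (InL_inv hlam'),
      sym_inv_right hS hm hlam', sym_inv_right hS hm' hlam'] at h1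
    rw [hS.add_left _ _ _ hm (InL_inv hm') (InL_mul hlam hlam'),
      hS.add_right _ _ _ hm hlam hlam', sym_inv_left hS hm' (InL_mul hlam hlam'),
      hS.add_right _ _ _ hm' hlam hlam'] at h2
    have t1 := hS.tors m (sharp γ l) hm hlam
    have t2 := hS.tors (γ • m) (γ ^ 3 • sharp γ l) hm' hlam'
    generalize sym m (sharp γ l) = A at *
    generalize sym m (γ ^ 3 • sharp γ l) = B at *
    generalize sym (γ • m) (sharp γ l) = C at *
    generalize sym (γ • m) (γ ^ 3 • sharp γ l) = D at *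
    have e2 : 2 • (A - D) = 0 := by
      have : 2 • (A - D) = (A + -B + (C + -D)) + (A + B + -(C + D)) := by abel
      rw [this, h1, h2, add_zero]
    have e7 : 7 • (A - D) = 0 := by
      rw [smul_sub, t1, t2, sub_zero]
    have : A - D = 7 • (A - D) - 3 • (2 • (A - D)) := by
      rw [smul_smul]; abel
    rw [this, e7, e2]
    simp
  intro a b ha hb
  have hE : ∀ e : Ω, e ∈ EE ζ γ ↔
      (∀ g : Ω ≃ₐ[F] Ω, g • ζ = ζ → g e = e) ∧ (γ ^ 2 : Ω ≃ₐ[F] Ω) e = e := fun e => Iff.rfl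
  have hr := hrel F Ω ζ (γ ^ 2) (EE ζ γ) hz7 ⟨3 ^ 2, gamma_pow hS.act 2⟩
    (Or.inl (by rw [← pow_mul]; exact gamma6 hS.prim hS.act (fun g hg => hg))) hE
  have := hgen F Ω ζ γ 3 6 Q sym Γ hS (EE ζ γ) (fun e he => ((hE e).1 he).1) hr
    (∑ i ∈ Finset.range 6, ((Γ ^ i : AddMonoid.End Q) : Q →+ Q)) ?_ a b ha hb
  · rw [AddMonoidHom.finset_sum_apply] at this
    exact this
  · intro e l he hl
    rw [AddMonoidHom.finset_sum_apply]
    apply hmain e l _ hl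
    · apply Units.ext
      exact ((hE e).1 he).2
    · intro g hg
      apply Units.ext
      exact ((hE e).1 he).1 g hg

end BR7.H30
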