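import Pool.Agent.Lib.MP_defcf3_al.BR.H50.KeyB

/-! H8: the norm of m lies in F and is not zero (Lemma 3 of the paper). -/

set_option linter.all false

namespace BR7.H30

universe u

open BR7 BR7.H50

section alg

variable {Ω : Type u} [Field Ω]

theorem pow_val_eq {z : Ω} (hz : z ^ 7 = 1) (a : ℕ) (b : ZMod 7) (h : (a : ZMod 7) = b) :
    z ^ a = z ^ b.val := by
  apply pow_red hz
  have h1 : ((a : ℕ) : ZMod 7) = ((b.val : ℕ) : ZMod 7) := by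
    rw [h, ZMod.natCast_zmod_val]
  exact (ZMod.natCast_eq_natCast_iff' _ _ _).1 h1

theorem pow_pow_val {z : Ω} (hz : z ^ 7 = 1) (k : ℕ) (a j : ZMod 7) :
    (z ^ k) ^ (a * j).val = z ^ (a * (k * j)).val := by
  rw [← pow_mul]
  apply pow_val_eq hz
  push_cast
  rw [ZMod.natCast_zmod_val]
  ring

theorem MM_powz {z : Ω} (hz : z ^ 7 = 1) (k : ℕ) (X0 X1 X2 Y0 Y1 Y2 θ : Ω) (j : ZMod 7) :
    MM (z ^ k) X0 X1 X2 Y0 Y1 Y2 θ j = MM z X0 X1 X2 Y0 Y1 Y2 θ (k * j) := by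
  unfold MM mm
  have e1 : (z ^ k) ^ j.val = z ^ ((k : ZMod 7) * j).val := by
    have := pow_pow_val hz k 1 j
    simpa using this
  rw [e1, pow_pow_val hz, pow_pow_val hz, pow_pow_val hz, pow_pow_val hz, pow_pow_val hz]

theorem MM_prod_powz {z : Ω} (hz : z ^ 7 = 1) (k : ℕ) (hk : (k : ZMod 7) ≠ 0)
    (X0 X1 X2 Y0 Y1 Y2 θ : Ω) :
    ∏ j, MM (z ^ k) X0 X1 X2 Y0 Y1 Y2 θ j = ∏ j, MM z X0 X1 X2 Y0 Y1 Y2 θ j := by
  have : Fact (Nat.Prime 7) := ⟨by norm_num⟩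
  simp only [MM_powz hz]
  exact Fintype.prod_equiv (Equiv.mulLeft₀ (k : ZMod 7) hk) _ _ (fun j => rfl)

theorem rel_next {X0 X1 X2 θ : Ω} (h : θ ^ 7 * (X0 ^ 4 * X1 ^ 2 * X2) = 1) :
    (X0 * θ ^ 2) ^ 7 * (X1 ^ 4 * X2 ^ 2 * X0) = 1 := by
  linear_combination (θ ^ 7 * (X0 ^ 4 * X1 ^ 2 * X2) + 1) * h

theorem th_cycle {X0 X1 X2 θ : Ω} (h : θ ^ 7 * (X0 ^ 4 * X1 ^ 2 * X2) = 1) :
    X2 * (X1 * (X0 * θ ^ 2) ^ 2) ^ 2 = θ := by
  linear_combination θ * h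

/-- Cyclic rotation of the data. -/
theorem MM_rot {z : Ω} (hz : z ^ 7 = 1) (X0 X1 X2 Y0 Y1 Y2 θ : Ω)
    (h : θ ^ 7 * (X0 ^ 4 * X1 ^ 2 * X2) = 1) (j : ZMod 7) :
    MM z X1 X2 X0 Y1 Y2 Y0 (X0 * θ ^ 2) (2 * j) = MM z X0 X1 X2 Y0 Y1 Y2 θ j := by
  unfold MM mm
  rw [th_cycle h]
  have i2 : (2 : ZMod 7) * (2 * j) = 4 * j := by ring
  have i4 : (4 : ZMod 7) * (2 * j) = j := by
    rw [← mul_assoc, show (4 : ZMod 7) * 2 = 1 from rfl, one_mul]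
  have i6 : (6 : ZMod 7) * (2 * j) = 5 * j := by
    rw [← mul_assoc, show (6 : ZMod 7) * 2 = 5 from rfl]
  have i5 : (5 : ZMod 7) * (2 * j) = 3 * j := by
    rw [← mul_assoc, show (5 : ZMod 7) * 2 = 3 from rfl]
  have i3 : (3 : ZMod 7) * (2 * j) = 6 * j := by
    rw [← mul_assoc, show (3 : ZMod 7) * 2 = 6 from rfl]
  rw [i2, i4, i6, i5, i3]
  have hX : X1 * X2 * X0 = X0 * X1 * X2 := by ring
  rw [hX]
  ring

theorem MM_prod_rot {z : Ω} (hz : z ^ 7 = 1) (X0 X1 X2 Y0 Y1 Y2 θ : Ω)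
    (h : θ ^ 7 * (X0 ^ 4 * X1 ^ 2 * X2) = 1) :
    ∏ j, MM z X1 X2 X0 Y1 Y2 Y0 (X0 * θ ^ 2) j = ∏ j, MM z X0 X1 X2 Y0 Y1 Y2 θ j := by
  have h2 : (2 : ZMod 7) ≠ 0 := by decide
  have : Fact (Nat.Prime 7) := ⟨by norm_num⟩
  refine (Fintype.prod_equiv (Equiv.mulLeft₀ (2 : ZMod 7) h2) _ _ (fun j => ?_)).symm
  exact (MM_rot hz X0 X1 X2 Y0 Y1 Y2 θ h j).symm

theorem MM_shift_pow {z : Ω} (hz : z ^ 7 = 1) (X0 X1 X2 Y0 Y1 Y2 θ : Ω) (n : ℕ) :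
    ∀ i : ZMod 7, MM z X0 X1 X2 Y0 Y1 Y2 (z ^ n * θ) i = MM z X0 X1 X2 Y0 Y1 Y2 θ (i + n) := by
  induction n with
  | zero => intro i; simp
  | succ n ih =>
    intro i
    rw [pow_succ', mul_assoc, MM_shift hz, ih]
    congr 1
    push_cast
    ring

/-- Inverse discrete Fourier transform. -/
theorem dft {z : Ω} (hs : 1 + z + z ^ 2 + z ^ 3 + z ^ 4 + z ^ 5 + z ^ 6 = 0) (t0 t1 t2 p0 p1 p2 : Ω)
    (h : ∀ j, mm z t0 t1 t2 p0 p1 p2 j = 0) : 7 * t0 = 0 := by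
  have m0 : z ^ 0 * t0 + z ^ 0 * t1 + z ^ 0 * t2 + z ^ 0 * p0 + z ^ 0 * p1 + z ^ 0 * p2 = 0 := h 0
  have m1 : z ^ 1 * t0 + z ^ 2 * t1 + z ^ 4 * t2 + z ^ 6 * p0 + z ^ 5 * p1 + z ^ 3 * p2 = 0 := h 1
  have m2 : z ^ 2 * t0 + z ^ 4 * t1 + z ^ 1 * t2 + z ^ 5 * p0 + z ^ 3 * p1 + z ^ 6 * p2 = 0 := h 2
  have m3 : z ^ 3 * t0 + z ^ 6 * t1 + z ^ 5 * t2 + z ^ 4 * p0 + z ^ 1 * p1 + z ^ 2 * p2 = 0 := h 3
  have m4 : z ^ 4 * t0 + z ^ 1 * t1 + z ^ 2 * t2 + z ^ 3 * p0 + z ^ 6 * p1 + z ^ 5 * p2 = 0 := h 4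
  have m5 : z ^ 5 * t0 + z ^ 3 * t1 + z ^ 6 * t2 + z ^ 2 * p0 + z ^ 4 * p1 + z ^ 1 * p2 = 0 := h 5
  have m6 : z ^ 6 * t0 + z ^ 5 * t1 + z ^ 3 * t2 + z ^ 1 * p0 + z ^ 2 * p1 + z ^ 4 * p2 = 0 := h 6
  linear_combination m0 + z ^ 6 * m1 + z ^ 5 * m2 + z ^ 4 * m3 + z ^ 3 * m4 + z ^ 2 * m5 + z * m6 -
    (((-6) + 6 * z) * t0 + (1 - z + z ^ 4) * t1 + (1 - z + z ^ 4) * t2 +
      (1 - z + z ^ 2 - z ^ 3 + z ^ 4 - z ^ 5 + z ^ 6) * p0 + (1 - z + z ^ 3 - z ^ 4 + z ^ 5) * p1 +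
      (1 - z + z ^ 3 - z ^ 4 + z ^ 5) * p2) * hs

end alg

variable {F Ω : Type u} [Field F] [Field Ω] [Algebra F Ω]

theorem root_quot {ζ : Ω} (hζ : IsPrimitiveRoot ζ 7) {a b c : Ω} (hb : b ≠ 0) (hc : c ≠ 0)
    (h1 : a ^ 7 * c = 1) (h2 : b ^ 7 * c = 1) : ∃ e : ℕ, a = ζ ^ e * b := by
  have h3 : a ^ 7 = b ^ 7 := by
    apply mul_right_cancel₀ hc
    rw [h1, h2]
  have h4 : (a / b) ^ 7 = 1 := by
    rw [div_pow, h3, div_self (pow_ne_zero 7 hb)]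
  obtain ⟨e, -, he⟩ := hζ.eq_pow_of_pow_eq_one h4
  exact ⟨e, by rw [he, div_mul_cancel₀ _ hb]⟩

theorem exists_pow_mul (k e : ℕ) (hk : (k : ZMod 7) ≠ 0) {z : Ω} (hz : z ^ 7 = 1) :
    ∃ e' : ℕ, z ^ e = (z ^ k) ^ e' := by
  have : Fact (Nat.Prime 7) := ⟨by norm_num⟩
  refine ⟨((e : ZMod 7) * (k : ZMod 7)⁻¹).val, ?_⟩
  rw [← pow_mul]
  apply pow_red hz
  have h1 : ((e : ℕ) : ZMod 7) = ((k * ((e : ZMod 7) * (k : ZMod 7)⁻¹).val : ℕ) : ZMod 7) := by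
    push_cast
    rw [ZMod.natCast_zmod_val]
    field_simp
  exact (ZMod.natCast_eq_natCast_iff' _ _ _).1 h1

/-- twisting θ does not change the product -/
theorem MM_prod_twist {z : Ω} (hz : z ^ 7 = 1) (k e : ℕ) (hk : (k : ZMod 7) ≠ 0)
    (X0 X1 X2 Y0 Y1 Y2 θ : Ω) :
    ∏ j, MM (z ^ k) X0 X1 X2 Y0 Y1 Y2 (z ^ e * θ) j = ∏ j, MM z X0 X1 X2 Y0 Y1 Y2 θ j := by
  obtain ⟨e', he'⟩ := exists_pow_mul k e hk hz
  have hz' : (z ^ k) ^ 7 = 1 := by rw [← pow_mul, mul_comm, pow_mul, hz, one_pow]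
  rw [he', MM_prod_pow hz', MM_prod_powz hz k hk]

theorem normm : NormMStatement.{u} := by
  intro F Ω _ _ _ _ ζ γ hζ hγ r q θ X0 X1 X2 hX0 hX1 hX2 hX0ne hθ t1 t2 p0 p1 p2 ht1 ht2 hp0 hp1 hp2
  have hζ' : IsPrimitiveRoot (ζ : Ω) 7 :=
    hζ.map_of_injective (f := Units.coeHom Ω) Units.val_injective
  have hz : (ζ : Ω) ^ 7 = 1 := pow7 hζ
  have hs := sum_zero (Ω := Ω) hζ
  set z : Ω := (ζ : Ω) with hzdef
  set Y0 : Ω := lineY (z + z ^ 6) (algebraMap F Ω r) (algebraMap F Ω q) with hY0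
  set Y1 : Ω := lineY (z ^ 2 + z ^ 5) (algebraMap F Ω r) (algebraMap F Ω q) with hY1
  set Y2 : Ω := lineY (z ^ 4 + z ^ 3) (algebraMap F Ω r) (algebraMap F Ω q) with hY2
  have hx1 : X1 ≠ 0 := by
    intro h
    rw [h] at hθ
    simp at hθ
  have hx2 : X2 ≠ 0 := by
    intro h
    rw [h] at hθ
    simp at hθ
  have hθ0 : (θ : Ω) ≠ 0 := θ.ne_zero
  have ht10 : t1 ≠ 0 := by
    rw [ht1]; exact mul_ne_zero hX0ne (pow_ne_zero 2 hθ0)
  have ht20 : t2 ≠ 0 := by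
    rw [ht2]; exact mul_ne_zero hx1 (pow_ne_zero 2 ht10)
  have hN : X0 * X1 * X2 ≠ 0 := mul_ne_zero (mul_ne_zero hX0ne hx1) hx2
  have hMM : ∀ j, mm z (θ : Ω) t1 t2 p0 p1 p2 j = MM z X0 X1 X2 Y0 Y1 Y2 (θ : Ω) j := by
    intro j
    have q0 : p0 = Y0 / ((θ : Ω) * (X0 * X1 * X2)) := by
      rw [eq_div_iff (mul_ne_zero hθ0 hN), ← mul_assoc]; exact hp0
    have q1 : p1 = Y1 / (t1 * (X0 * X1 * X2)) := by
      rw [eq_div_iff (mul_ne_zero ht10 hN), ← mul_assoc]; exact hp1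
    have q2 : p2 = Y2 / (t2 * (X0 * X1 * X2)) := by
      rw [eq_div_iff (mul_ne_zero ht20 hN), ← mul_assoc]; exact hp2
    unfold MM
    rw [q0, q1, q2, ht2, ht1]
  simp only [hMM]
  have hmap : ∀ (g : Ω ≃ₐ[F] Ω) (j : ZMod 7), g (MM z X0 X1 X2 Y0 Y1 Y2 (θ : Ω) j) =
      MM (g z) (g X0) (g X1) (g X2) (g Y0) (g Y1) (g Y2) (g θ) j := by
    intro g j
    unfold MM mm
    simp only [map_add, map_mul, map_pow, map_div₀]
  have hθ1 := rel_next hθ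
  have hθ2 := rel_next hθ1
  refine ⟨fun g => ?_, ?_⟩
  · obtain ⟨k, hk7, hk⟩ := hζ'.eq_pow_of_pow_eq_one (ξ := g z) (by rw [← map_pow, hz, map_one])
    rw [map_prod]
    simp only [hmap]
    have hgθ : (g (θ : Ω)) ^ 7 * (g X0 ^ 4 * g X1 ^ 2 * g X2) = 1 := by
      rw [← map_pow, ← map_pow, ← map_pow, ← map_mul, ← map_mul, ← map_mul, hθ, map_one]
    have gt : ∀ a b : ℕ, g (z ^ a + z ^ b) = z ^ (k * a) + z ^ (k * b) := by
      intro a b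
      rw [map_add, map_pow, map_pow, ← hk, ← pow_mul, ← pow_mul]
    have gX0 : g X0 = lineX (z ^ (k * 1) + z ^ (k * 6)) (algebraMap F Ω r) (algebraMap F Ω q) := by
      rw [hX0, map_lineX, ← gt, pow_one]
    have gX1 : g X1 = lineX (z ^ (k * 2) + z ^ (k * 5)) (algebraMap F Ω r) (algebraMap F Ω q) := by
      rw [hX1, map_lineX, ← gt]
    have gX2 : g X2 = lineX (z ^ (k * 4) + z ^ (k * 3)) (algebraMap F Ω r) (algebraMap F Ω q) := by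
      rw [hX2, map_lineX, ← gt]
    have gY0 : g Y0 = lineY (z ^ (k * 1) + z ^ (k * 6)) (algebraMap F Ω r) (algebraMap F Ω q) := by
      rw [hY0, map_lineY, ← gt, pow_one]
    have gY1 : g Y1 = lineY (z ^ (k * 2) + z ^ (k * 5)) (algebraMap F Ω r) (algebraMap F Ω q) := by
      rw [hY1, map_lineY, ← gt]
    have gY2 : g Y2 = lineY (z ^ (k * 4) + z ^ (k * 3)) (algebraMap F Ω r) (algebraMap F Ω q) := by
      rw [hY2, map_lineY, ← gt]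
    have hk0 : k ≠ 0 := by
      rintro rfl
      rw [pow_zero] at hk
      have h1 : z = 1 := by
        apply g.injective
        rw [← hk, map_one]
      exact hζ'.ne_one (by norm_num) h1
    -- the three cases
    have case0 : g X0 = X0 → g X1 = X1 → g X2 = X2 → g Y0 = Y0 → g Y1 = Y1 → g Y2 = Y2 →
        (k : ZMod 7) ≠ 0 →
        ∏ j, MM (g z) (g X0) (g X1) (g X2) (g Y0) (g Y1) (g Y2) (g θ) j =
          ∏ j, MM z X0 X1 X2 Y0 Y1 Y2 (θ : Ω) j := by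
      intro a0 a1 a2 b0 b1 b2 hk'
      rw [a0, a1, a2] at hgθ
      obtain ⟨e, he⟩ := root_quot hζ' hθ0
        (mul_ne_zero (mul_ne_zero (pow_ne_zero 4 hX0ne) (pow_ne_zero 2 hx1)) hx2) hgθ hθ
      rw [a0, a1, a2, b0, b1, b2, ← hk, he]
      exact MM_prod_twist hz k e hk' _ _ _ _ _ _ _
    have case1 : g X0 = X1 → g X1 = X2 → g X2 = X0 → g Y0 = Y1 → g Y1 = Y2 → g Y2 = Y0 →
        (k : ZMod 7) ≠ 0 →
        ∏ j, MM (g z) (g X0) (g X1) (g X2) (g Y0) (g Y1) (g Y2) (g θ) j =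
          ∏ j, MM z X0 X1 X2 Y0 Y1 Y2 (θ : Ω) j := by
      intro a0 a1 a2 b0 b1 b2 hk'
      rw [a0, a1, a2] at hgθ
      obtain ⟨e, he⟩ := root_quot hζ' (mul_ne_zero hX0ne (pow_ne_zero 2 hθ0))
        (mul_ne_zero (mul_ne_zero (pow_ne_zero 4 hx1) (pow_ne_zero 2 hx2)) hX0ne) hgθ hθ1
      rw [a0, a1, a2, b0, b1, b2, ← hk, he, MM_prod_twist hz k e hk', MM_prod_rot hz _ _ _ _ _ _ _ hθ]
    have case2 : g X0 = X2 → g X1 = X0 → g X2 = X1 → g Y0 = Y2 → g Y1 = Y0 → g Y2 = Y1 →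
        (k : ZMod 7) ≠ 0 →
        ∏ j, MM (g z) (g X0) (g X1) (g X2) (g Y0) (g Y1) (g Y2) (g θ) j =
          ∏ j, MM z X0 X1 X2 Y0 Y1 Y2 (θ : Ω) j := by
      intro a0 a1 a2 b0 b1 b2 hk'
      rw [a0, a1, a2] at hgθ
      obtain ⟨e, he⟩ := root_quot hζ'
        (mul_ne_zero hx1 (pow_ne_zero 2 (mul_ne_zero hX0ne (pow_ne_zero 2 hθ0))))
        (mul_ne_zero (mul_ne_zero (pow_ne_zero 4 hx2) (pow_ne_zero 2 hX0ne)) hx1) hgθ hθ2
      rw [a0, a1, a2, b0, b1, b2, ← hk, he, MM_prod_twist hz k e hk',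
        MM_prod_rot hz _ _ _ _ _ _ _ hθ1, MM_prod_rot hz _ _ _ _ _ _ _ hθ]
    have red : ∀ (f : Ω → Ω → Ω → Ω) (a b a' b' : ℕ), a % 7 = a' % 7 → b % 7 = b' % 7 →
        f (z ^ a + z ^ b) (algebraMap F Ω r) (algebraMap F Ω q) =
        f (z ^ a' + z ^ b') (algebraMap F Ω r) (algebraMap F Ω q) := by
      intro f a b a' b' h1 h2
      rw [pow_red hz a a' h1, pow_red hz b b' h2]
    have redc : ∀ (f : Ω → Ω → Ω → Ω) (a b a' b' : ℕ), a % 7 = b' % 7 → b % 7 = a' % 7 →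
        f (z ^ a + z ^ b) (algebraMap F Ω r) (algebraMap F Ω q) =
        f (z ^ a' + z ^ b') (algebraMap F Ω r) (algebraMap F Ω q) := by
      intro f a b a' b' h1 h2
      rw [pow_red hz a b' h1, pow_red hz b a' h2, add_comm]
    have f1 : z + z ^ 6 = z ^ 1 + z ^ 6 := by rw [pow_one]
    rw [f1] at hX0
    have hY0' : Y0 = lineY (z ^ 1 + z ^ 6) (algebraMap F Ω r) (algebraMap F Ω q) := by
      rw [hY0, f1]
    have hkne : (k : ZMod 7) ≠ 0 := by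
      intro h
      rw [ZMod.natCast_eq_zero_iff] at h
      exact hk0 (Nat.eq_zero_of_dvd_of_lt h hk7)
    have hkc : k = 1 ∨ k = 2 ∨ k = 3 ∨ k = 4 ∨ k = 5 ∨ k = 6 := by omega
    rcases hkc with rfl | rfl | rfl | rfl | rfl | rfl
    · refine case0 ?_ ?_ ?_ ?_ ?_ ?_ hkne
      · rw [gX0, hX0]
      · rw [gX1, hX1]
      · rw [gX2, hX2]
      · rw [gY0, hY0']
      · rw [gY1]
      · rw [gY2]
    · refine case1 ?_ ?_ ?_ ?_ ?_ ?_ hkne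
      · rw [gX0, hX1]; exact red _ _ _ _ _ (by norm_num) (by norm_num)
      · rw [gX1, hX2]; exact red _ _ _ _ _ (by norm_num) (by norm_num)
      · rw [gX2, hX0]; exact red _ _ _ _ _ (by norm_num) (by norm_num)
      · rw [gY0]; exact red _ _ _ _ _ (by norm_num) (by norm_num)
      · rw [gY1]; exact red _ _ _ _ _ (by norm_num) (by norm_num)
      · rw [gY2, hY0']; exact red _ _ _ _ _ (by norm_num) (by norm_num)
    · refine case2 ?_ ?_ ?_ ?_ ?_ ?_ hkne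
      · rw [gX0, hX2]; exact redc _ _ _ _ _ (by norm_num) (by norm_num)
      · rw [gX1, hX0]; exact redc _ _ _ _ _ (by norm_num) (by norm_num)
      · rw [gX2, hX1]; exact redc _ _ _ _ _ (by norm_num) (by norm_num)
      · rw [gY0]; exact redc _ _ _ _ _ (by norm_num) (by norm_num)
      · rw [gY1, hY0']; exact redc _ _ _ _ _ (by norm_num) (by norm_num)
      · rw [gY2]; exact redc _ _ _ _ _ (by norm_num) (by norm_num)
    · refine case2 ?_ ?_ ?_ ?_ ?_ ?_ hkne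
      · rw [gX0, hX2]; exact red _ _ _ _ _ (by norm_num) (by norm_num)
      · rw [gX1, hX0]; exact red _ _ _ _ _ (by norm_num) (by norm_num)
      · rw [gX2, hX1]; exact red _ _ _ _ _ (by norm_num) (by norm_num)
      · rw [gY0]; exact red _ _ _ _ _ (by norm_num) (by norm_num)
      · rw [gY1, hY0']; exact red _ _ _ _ _ (by norm_num) (by norm_num)
      · rw [gY2]; exact red _ _ _ _ _ (by norm_num) (by norm_num)
    · refine case1 ?_ ?_ ?_ ?_ ?_ ?_ hkne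
      · rw [gX0, hX1]; exact redc _ _ _ _ _ (by norm_num) (by norm_num)
      · rw [gX1, hX2]; exact redc _ _ _ _ _ (by norm_num) (by norm_num)
      · rw [gX2, hX0]; exact redc _ _ _ _ _ (by norm_num) (by norm_num)
      · rw [gY0]; exact redc _ _ _ _ _ (by norm_num) (by norm_num)
      · rw [gY1]; exact redc _ _ _ _ _ (by norm_num) (by norm_num)
      · rw [gY2, hY0']; exact redc _ _ _ _ _ (by norm_num) (by norm_num)
    · refine case0 ?_ ?_ ?_ ?_ ?_ ?_ hkne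
      · rw [gX0, hX0]; exact redc _ _ _ _ _ (by norm_num) (by norm_num)
      · rw [gX1, hX1]; exact redc _ _ _ _ _ (by norm_num) (by norm_num)
      · rw [gX2, hX2]; exact redc _ _ _ _ _ (by norm_num) (by norm_num)
      · rw [gY0, hY0']; exact redc _ _ _ _ _ (by norm_num) (by norm_num)
      · rw [gY1]; exact redc _ _ _ _ _ (by norm_num) (by norm_num)
      · rw [gY2]; exact redc _ _ _ _ _ (by norm_num) (by norm_num)
  · rintro ⟨g, hg1, hg2⟩ j hj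
    have hgz : g z = z := by
      rw [hzdef, ← smul_coe, hg1]
    have gt : ∀ a b : ℕ, g (z ^ a + z ^ b) = z ^ a + z ^ b := by
      intro a b
      rw [map_add, map_pow, map_pow, hgz]
    have gX0 : g X0 = X0 := by
      rw [hX0, map_lineX, map_add, map_pow, hgz]
    have gX1 : g X1 = X1 := by rw [hX1, map_lineX, gt]
    have gX2 : g X2 = X2 := by rw [hX2, map_lineX, gt]
    have gY0 : g Y0 = Y0 := by rw [hY0, map_lineY, map_add, map_pow, hgz]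
    have gY1 : g Y1 = Y1 := by rw [hY1, map_lineY, gt]
    have gY2 : g Y2 = Y2 := by rw [hY2, map_lineY, gt]
    have hgθ : (g (θ : Ω)) ^ 7 * (X0 ^ 4 * X1 ^ 2 * X2) = 1 := by
      have : (g (θ : Ω)) ^ 7 * (g X0 ^ 4 * g X1 ^ 2 * g X2) = 1 := by
        rw [← map_pow, ← map_pow, ← map_pow, ← map_mul, ← map_mul, ← map_mul, hθ, map_one]
      rwa [gX0, gX1, gX2] at this
    obtain ⟨e, he⟩ := root_quot hζ' hθ0
      (mul_ne_zero (mul_ne_zero (pow_ne_zero 4 hX0ne) (pow_ne_zero 2 hx1)) hx2) hgθ hθ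
    have he0 : (e : ZMod 7) ≠ 0 := by
      intro h
      apply hg2
      apply Units.ext
      rw [smul_coe, he]
      have : z ^ e = 1 := by
        rw [pow_val_eq hz e 0 h]
        simp
      rw [this, one_mul]
    have step : ∀ i : ZMod 7, MM z X0 X1 X2 Y0 Y1 Y2 (θ : Ω) i = 0 →
        MM z X0 X1 X2 Y0 Y1 Y2 (θ : Ω) (i + e) = 0 := by
      intro i hi
      have h1 := congrArg g hi
      rw [hmap, map_zero, gX0, gX1, gX2, gY0, gY1, gY2, hgz, he] at h1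
      rw [MM_shift_pow hz] at h1
      exact h1
    have all : ∀ n : ℕ, MM z X0 X1 X2 Y0 Y1 Y2 (θ : Ω) (j + n * e) = 0 := by
      intro n
      induction n with
      | zero => simpa using hj
      | succ n ih =>
        have := step _ ih
        rw [show (j + (n : ZMod 7) * e + e) = j + ((n + 1 : ℕ) : ZMod 7) * e by push_cast; ring] at this
        exact this
    have : Fact (Nat.Prime 7) := ⟨by norm_num⟩
    have all' : ∀ i : ZMod 7, MM z X0 X1 X2 Y0 Y1 Y2 (θ : Ω) i = 0 := by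
      intro i
      have := all ((i - j) * (e : ZMod 7)⁻¹).val
      rw [ZMod.natCast_zmod_val, mul_assoc, inv_mul_cancel₀ he0, mul_one, add_sub_cancel] at this
      exact this
    have h7 : (7 : Ω) * θ = 0 := dft hs _ _ _ _ _ _ all'
    have h7' : ((7 : ℕ) : Ω) ≠ 0 := (hζ'.neZero').ne
    rcases mul_eq_zero.1 h7 with h | h
    · exact h7' (by exact_mod_cast h)
    · exact hθ0 h

end BR7.H30
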